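import Mathlib
import Pool.Agent.Helper28K1.AC.Uni

/-!
# Composita of alternating extensions have free absolute Galois groups

Let `K` be a number field, or any countable Hilbertian field of characteristic zero, and let `J` be
a set of natural numbers `n ≥ n₁` such that for every `m > 0` the multiples of `m` in `J` have
positive upper density (for example the set of all `n ≥ n₁`). Then there are independent Galois
extensions `L n` of `K` with group `A_n`, `n ∈ J`, such that every compositum `F` of Galois
extensions of `K` with nonabelian simple groups which contains all the `L n` has a free absolute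
Galois group (of countable rank).

The smallest `F`, the compositum of the `L n`, gives an exact sequence
`1 → F̂_ω → Gal(K) → ∏_{n ∈ J} A_n → 1`. Another example is the compositum of all Galois extensions
of `K` with group `A_n` for some `n ∈ J`.
-/

set_option autoImplicit false

open Pool.Agent.H391R2.T4 (HilbField hilb_numberField)

namespace Pool.Agent.Results.MP_dadaab_nt.AlternatingClosure

/-- For every `m > 0` the set of the multiples of `m` in `J` has positive upper density. -/
def ManyMultiples (J : Set ℕ) : Prop :=
  ∀ m : ℕ, 0 < m → ∃ ε : ℝ, 0 < ε ∧ ∀ N : ℕ, ∃ x ≥ N,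
    ε * x ≤ ({n : ℕ | n < x ∧ m ∣ n ∧ n ∈ J}.ncard : ℝ)

/-- The (profinite) topological group `G` is free profinite on the sequence `x`: this sequence
converges to `1`, and every sequence `y` in a finite group `H` with `y i = 1` for all large `i` is
the image of `x` under exactly one continuous homomorphism `G → H`. -/
structure FreeProfiniteOn (G : Type) [Group G] [TopologicalSpace G] (x : ℕ → G) : Prop where
  converges : ∀ U : Subgroup G, IsOpen (U : Set G) → ∃ N, ∀ i ≥ N, x i ∈ U
  universal : ∀ (H : Type) [Group H] [Finite H] (y : ℕ → H), (∃ N, ∀ i ≥ N, y i = 1) →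
    ∃! f : G →* H, IsOpen (f.ker : Set G) ∧ ∀ i, f (x i) = y i

section fields

variable {K : Type} [Field K]

/-- `D` is a finite Galois extension of `K` with a nonabelian simple Galois group. -/
def HasSimpleGroup (D : IntermediateField K (AlgebraicClosure K)) : Prop :=
  FiniteDimensional K D ∧ IsGalois K D ∧ IsSimpleGroup (D ≃ₐ[K] D) ∧
    ∃ a b : D ≃ₐ[K] D, a * b ≠ b * a

/-- The `L n`, `n ∈ J`, are Galois extensions of `K` with groups `A_n`, and they are independent:
every family of automorphisms `σ n` of the `L n` over `K` extends to an automorphism of the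
algebraic closure. -/
structure IndependentAlternating (J : Set ℕ)
    (L : J → IntermediateField K (AlgebraicClosure K)) : Prop where
  galois : ∀ n, FiniteDimensional K (L n) ∧ IsGalois K (L n)
  group : ∀ n : J, Nonempty ((L n ≃ₐ[K] L n) ≃* alternatingGroup (Fin n))
  independent : ∀ σ : ∀ n, L n ≃ₐ[K] L n,
    ∃ g : AlgebraicClosure K ≃ₐ[K] AlgebraicClosure K, ∀ n (x : L n), g x = σ n x

end fields

theorem dns_of_many {J : Set ℕ} (h : ManyMultiples J) : Pool.Agent.Helper28K1.AC.Dns J := by
  classical
  intro m hm
  obtain ⟨ε, hε, h1⟩ := h m hm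
  refine ⟨ε, hε, fun N => ?_⟩
  obtain ⟨x, hx, h2⟩ := h1 N
  refine ⟨x, hx, h2.trans (le_of_eq ?_)⟩
  have h3 : {n : ℕ | n < x ∧ m ∣ n ∧ n ∈ J} =
      (((Finset.range x).filter fun n => m ∣ n ∧ n ∈ J : Finset ℕ) : Set ℕ) := by
    ext n
    simp
  rw [h3, Set.ncard_coe_finset]

theorem countable_of_numberField (K : Type) [Field K] [NumberField K] : Countable K := by
  have h := Algebra.IsAlgebraic.cardinalMk_le_max ℚ K
  rw [← Cardinal.mk_le_aleph0_iff]
  refine h.trans ?_
  simp

end Pool.Agent.Results.MP_dadaab_nt.AlternatingClosure

open Pool.Agent.Results.MP_dadaab_nt.AlternatingClosure in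
/-- **Composita of alternating extensions.** There is `n₁` such that for every field `K` of
characteristic zero which is a number field, or countable and Hilbertian, and every set `J` of
numbers `n ≥ n₁` with many multiples there are independent Galois extensions `L n` of `K` with
groups `A_n`, `n ∈ J`, with the following property: if a compositum `F = sSup S` of finite Galois
extensions of `K` with nonabelian simple groups contains all the `L n`, then the absolute Galois
group of `F` is a free profinite group of countable rank. -/
theorem Pool.Agent.Results.MP_dadaab_nt.AlternatingClosure.result :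
    ∃ n₁ ≥ 5, ∀ (K : Type) [Field K] [CharZero K],
      (NumberField K ∨ (Countable K ∧ HilbField K)) →
      ∀ J : Set ℕ, (∀ n ∈ J, n₁ ≤ n) → ManyMultiples J →
        ∃ L : J → IntermediateField K (AlgebraicClosure K), IndependentAlternating J L ∧
          ∀ S : Set (IntermediateField K (AlgebraicClosure K)), (∀ D ∈ S, HasSimpleGroup D) →
            (∀ n, L n ≤ sSup S) →
            ∃ x : ℕ → (sSup S).fixingSubgroup, FreeProfiniteOn (sSup S).fixingSubgroup x := by
  obtain ⟨n₁, h⟩ := Pool.Agent.Helper28K1.AC.uni_final
  refine ⟨max n₁ 5, le_max_right _ _, fun K _ _ hK J hJn hJ => ?_⟩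
  have hK' : Countable K ∧ HilbField K := by
    rcases hK with hK | hK
    · exact ⟨countable_of_numberField K, hilb_numberField K⟩
    · exact hK
  have := hK'.1
  obtain ⟨L, h1, h2, h3⟩ := h K hK'.2 J (dns_of_many hJ) fun n hn =>
    (le_max_left _ _).trans (hJn n hn)
  refine ⟨L, ⟨fun n => ⟨(h1 n).1, (h1 n).2.1⟩, fun n => (h1 n).2.2, h2⟩, fun S hS hL => ?_⟩
  obtain ⟨x, hx⟩ := h3 S hS hL
  exact ⟨x, hx.conv, hx.univ⟩
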