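import Mathlib
import Pool.Agent.Helper87A.Fi

/-!
# The groups `G ≀ A_n` for all large `n`

The definitions are in the files `Voc.lean`, `VocC.lean` and `VocQ.lean` of `Pool/Agent/N70/EP`:

* `AltWreath G n` is the wreath product `G ≀ A_n`.
* `AltRealizable G n`: for every field `K` of characteristic `0`, `G ≀ A_n` is the Galois group of a
  Galois extension of `K(t)` in which `K` is algebraically closed; if `K` is Hilbertian, for example
  a number field, it is a Galois group over `K`.

For EVERY finite perfect group `G` (no realization of `G` is assumed) `AltRealizable G n` holds for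
all but finitely many natural numbers `n`.
-/

set_option autoImplicit false

open Pool.Agent.N70.EP.Voc

theorem Pool.Agent.Results.MP_dadaab_nt.AlternatingWreathAllDegrees.result :
    ∀ (G : Type) [Group G] [Finite G], commutator G = ⊤ →
      ∃ n₀ : ℕ, ∀ n ≥ n₀, AltRealizable G n :=
  fun G _ _ hG => (Pool.Agent.Helper87A.final G hG).imp fun _ h n hn => (h n hn).2
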