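import Mathlib
import Pool.Prelude.Def_F_b1b78ff3
import Pool.Agent.Helper99.PK.Main

/-!
# Embedding problems with profinite kernels

`Univ` (file `Pool/Agent/N600/UK/Defs.lean`) is the class of finite groups of the theorem
`UniversalKernels`: it contains the wreath products `G ≀ S_n` (`n` large) of the nontrivial finite
groups `G` with trivial centre for which `Inn G` has a complement in `Aut G`, the twofold wreath
products `(G ≀ S_m) ≀ S_n` of every nontrivial finite group `G` with trivial centre (`|Out G|`
dividing `m`; `m`, `n` large), the complete groups which are regular over all infinite fields (for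
example `S_n` for `n ≥ 3`, `n ≠ 6`), and it is closed under direct products, direct factors,
characteristic extensions and `T ↦ T ≀ S_n` for `n ≥ 2 (|T| + 2)`.

Let `X` be a profinite group with a descending sequence `N 0 ≥ N 1 ≥ …` of open normal subgroups
with trivial intersection, such that all quotients `N i / N (i + 1)` belong to `Univ`. Then every
embedding problem `X → Gal(L/K)` with kernel `N 0` over a number field (a Hilbertian field) `K` has a
proper solution. This covers for example the infinitely iterated wreath products
`… ≀ T_3 ≀ T_2 ≀ T_1 ≀ W` with `T_i` in `Univ` and `W` realizable, with respect to any permutation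
actions.
-/

set_option autoImplicit false

open Nfff32c05 Pool.Agent.N600.UK
open Pool.Agent.H391R2.T4 (HilbField hilb_numberField)

namespace Pool.Agent.Results.MP_dadaab_nt.ProfiniteKernels

/-- `N` is a descending sequence of open normal subgroups of the topological group `X` with trivial
intersection, and all the quotients `N i / N (i + 1)` belong to the class `Univ`. -/
structure UnivChain (X : Type) [Group X] [TopologicalSpace X] (N : ℕ → Subgroup X)
    [∀ i, (N i).Normal] : Prop where
  antitone : Antitone N
  isOpen : ∀ i, IsOpen (N i : Set X)
  trivial : ⨅ i, N i = ⊥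
  quotients : ∀ i, ∃ (T : Type) (_ : Group T), Univ T ∧
    Nonempty ((N i ⧸ (N (i + 1)).subgroupOf (N i)) ≃* T)

/-- The embedding problem `α : X → Gal(L/K)` over `K`, `X` a profinite group, has a proper solution:
there are a Galois extension `F` of `K` which contains `L` and a topological isomorphism
`γ : Gal(F/K) ≃ X` such that `α ∘ γ` is the restriction to `L`. -/
def ProperSolution (K L X : Type) [Field K] [Field L] [Algebra K L] [Normal K L] [Group X]
    [TopologicalSpace X] (α : X →* (L ≃ₐ[K] L)) : Prop :=
  ∃ (F : Type) (_ : Field F) (_ : Algebra K F) (_ : Algebra L F) (_ : IsScalarTower K L F),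
    IsGalois K F ∧ ∃ γ : (F ≃ₐ[K] F) ≃ₜ* X, ∀ σ : F ≃ₐ[K] F, α (γ σ) = σ.restrictNormal L

end Pool.Agent.Results.MP_dadaab_nt.ProfiniteKernels

open Pool.Agent.Results.MP_dadaab_nt.ProfiniteKernels in
/-- **Profinite kernels.** For every profinite group `X` with a chain `N` of open normal subgroups
with quotients in `Univ`: all embedding problems `X → Gal(L/K)` with kernel `N 0` over a number field
or a Hilbertian field `K` are properly solvable. -/
theorem Pool.Agent.Results.MP_dadaab_nt.ProfiniteKernels.result :
    ∀ (X : Type) [Group X] [TopologicalSpace X] [IsTopologicalGroup X] [CompactSpace X]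
      [T2Space X] (N : ℕ → Subgroup X) [∀ i, (N i).Normal], UnivChain X N →
      ∀ (K : Type) [Field K], NumberField K ∨ HilbField K →
        ∀ (L : Type) [Field L] [Algebra K L] [FiniteDimensional K L] [IsGalois K L]
          (α : X →* (L ≃ₐ[K] L)), Function.Surjective α → α.ker = N 0 →
          ProperSolution K L X α := by
  intro X _ _ _ _ _ N _ h K _ hK L _ _ _ _ α hα hker
  have htriv : ∀ x : X, (∀ i, x ∈ N i) → x = 1 := by
    intro x hx
    have h1 : x ∈ ⨅ i, N i := Subgroup.mem_iInf.2 hx
    rw [h.trivial] at h1
    exact Subgroup.mem_bot.1 h1
  have hK' : HilbField K := by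
    rcases hK with hK | hK
    · exact hilb_numberField K
    · exact hK
  exact Pool.Agent.Helper99.PK.profinite hK' h.antitone h.isOpen htriv h.quotients L α hα hker
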