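import Mathlib
import Pool.Agent.Helper87C.Fd

/-!
# Everywhere unramified extensions with any finite group over `A_n`-fields of degree `n`

For EVERY finite group `G` (no realization of `G` is assumed), all large `n` and every finite set
`S` of primes there are number fields `E ⊆ M` such that

* `E` has degree `n` over `ℚ` and its Galois closure over `ℚ` has the group `A_n`;
* `M / E` is Galois with the group `G`, it is unramified at ALL finite and infinite places, and
  every prime of `E` above a prime of `S` splits completely in `M`;
* the Galois closure of `M` over `ℚ` has the group of all elements of the wreath product `G ≀ A_n`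
  such that the product of the coordinates is trivial in the abelianization of `G`. This is
  the group `G ≀ A_n` if `G` is perfect.
-/

set_option autoImplicit false

open NumberField

namespace Pool.Agent.Results.MP_dadaab_nt.UnramifiedEveryGroup

/-- The group of all elements of the wreath product `G ≀ S_n = G ^ n ⋊ S_n` over even permutations
such that the product of the coordinates is trivial in the abelianization of `G`. -/
def EvenWreath (G : Type) [Group G] (n : ℕ) :
    Subgroup ((Fin n → G) ⋊[mulAutArrow] Equiv.Perm (Fin n)) where
  carrier := {x | Equiv.Perm.sign x.right = 1 ∧ ∏ i, Abelianization.of (x.left i) = 1}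
  one_mem' := (Pool.Agent.Helper87C.EW G n).one_mem
  mul_mem' := fun ha hb => (Pool.Agent.Helper87C.EW G n).mul_mem ha hb
  inv_mem' := fun ha => (Pool.Agent.Helper87C.EW G n).inv_mem ha

/-- The Galois closure of the number field `F` over `ℚ` has the Galois group `X`. -/
def ClosureGroup (F : Type) [Field F] [NumberField F] (X : Type) [Group X] : Prop :=
  ∃ (N : Type) (_ : Field N) (_ : NumberField N) (_ : Algebra F N) (_ : IsGalois ℚ N),
    IsNormalClosure ℚ F N ∧ Nonempty ((N ≃ₐ[ℚ] N) ≃* X)

/-- The extension `M / E` is unramified at all finite and infinite places. -/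
def UnramifiedEverywhere (E M : Type) [Field E] [NumberField E] [Field M] [NumberField M]
    [Algebra E M] : Prop :=
  (∀ (Q : Ideal (𝓞 M)) [Q.IsPrime], Algebra.IsUnramifiedAt (𝓞 E) Q) ∧
    IsUnramifiedAtInfinitePlaces E M

/-- Every prime ideal of `E` above a prime number of `S` splits completely in `M`: there are
`[M : E]` prime ideals of `M` above it. -/
def SplitAbove (S : Finset ℕ) (E M : Type) [Field E] [NumberField E] [Field M] [NumberField M]
    [Algebra E M] : Prop :=
  ∀ p ∈ S, ∀ q : Ideal (𝓞 E), q.IsPrime → (p : 𝓞 E) ∈ q →
    (q.primesOver (𝓞 M)).ncard = Module.finrank E M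

end Pool.Agent.Results.MP_dadaab_nt.UnramifiedEveryGroup

open Pool.Agent.Results.MP_dadaab_nt.UnramifiedEveryGroup in
theorem Pool.Agent.Results.MP_dadaab_nt.UnramifiedEveryGroup.result :
    ∀ (G : Type) [Group G] [Finite G],
      ∃ n₀ : ℕ, ∀ n ≥ n₀, ∀ S : Finset ℕ, (∀ p ∈ S, p.Prime) →
        ∃ (E M : Type) (_ : Field E) (_ : NumberField E) (_ : Field M) (_ : NumberField M)
          (_ : Algebra E M) (_ : IsGalois E M),
          Module.finrank ℚ E = n ∧ ClosureGroup E (alternatingGroup (Fin n)) ∧
          Nonempty ((M ≃ₐ[E] M) ≃* G) ∧ ClosureGroup M (EvenWreath G n) ∧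
          UnramifiedEverywhere E M ∧ SplitAbove S E M :=
  fun G _ _ => Pool.Agent.Helper87C.final3 G
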